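import Pool.Agent.Helper2.NNQ.FarStm

set_option autoImplicit false

open MeasureTheory Filter Topology Finset

namespace Pool.Agent.Helper32.NNF

open Pool.Agent.Helper2.NNF

lemma K_large (K₀ n : ℕ) (h : 2 ^ (2 ^ K₀) ≤ n) : K₀ ≤ KK n := by
  unfold KK
  have h1 : 2 ^ K₀ ≤ Nat.log 2 n := Nat.le_log_of_pow_le (by norm_num) h
  exact Nat.le_log_of_pow_le (by norm_num) h1

lemma pow_le (n : ℕ) (h : 2 ≤ n) : 2 ^ (2 ^ (KK n)) ≤ n := by
  unfold KK
  have h0 : Nat.log 2 n ≠ 0 := by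
    have := Nat.log_pos (b := 2) (by norm_num) h
    omega
  calc 2 ^ (2 ^ (Nat.log 2 (Nat.log 2 n))) ≤ 2 ^ (Nat.log 2 n) :=
        Nat.pow_le_pow_right (by norm_num) (Nat.pow_log_le_self 2 h0)
    _ ≤ n := Nat.pow_log_le_self 2 (by omega)

lemma fac_le (K : ℕ) : (2 * K + 2).factorial ≤ 2 ^ (2 * (K + 1) ^ 2) := by
  have h1 : (2 * K + 2).factorial ≤ (2 * K + 2) ^ (2 * K + 2) := Nat.factorial_le_pow _
  have h2 : 2 * K + 2 ≤ 2 ^ (K + 1) := by
    have := Nat.lt_two_pow_self (n := K)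
    rw [pow_succ]; omega
  calc _ ≤ (2 * K + 2) ^ (2 * K + 2) := h1
    _ ≤ (2 ^ (K + 1)) ^ (2 * K + 2) := Nat.pow_le_pow_left h2 _
    _ = 2 ^ (2 * (K + 1) ^ 2) := by
        rw [← pow_mul]; congr 1; ring

lemma quad (K : ℕ) (h : 8 ≤ K) : 2 * (K + 1) ^ 2 + 4 ≤ 2 ^ K := by
  induction K, h using Nat.le_induction with
  | base => norm_num
  | succ K hK ih =>
    have h3 : 2 ^ (K + 1) = 2 ^ K * 2 := pow_succ 2 K
    rw [h3]
    have h : 2 * (K + 1 + 1) ^ 2 + 4 + 2 * K ^ 2 = 2 * (2 * (K + 1) ^ 2 + 4) := by ring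
    have h2 : 0 ≤ 2 * K ^ 2 := Nat.zero_le _
    linarith

lemma eightQ (n : ℕ) (h : 2 ^ (2 ^ 8) ≤ n) : 8 * (2 * KK (n + 1) + 2).factorial ≤ n := by
  have h1 : 8 ≤ KK (n + 1) := K_large 8 (n + 1) (by omega)
  have h2 := fac_le (KK (n + 1))
  have h3 := quad _ h1
  have h256 : 1 ≤ 2 ^ (2 ^ 8) := Nat.one_le_two_pow
  have h4 := pow_le (n + 1) (by omega)
  have h5 : 2 ^ 4 * (2 * KK (n + 1) + 2).factorial ≤ 2 ^ (2 ^ (KK (n + 1))) := by
    calc 2 ^ 4 * (2 * KK (n + 1) + 2).factorial ≤ 2 ^ 4 * 2 ^ (2 * (KK (n + 1) + 1) ^ 2) :=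
          Nat.mul_le_mul_left _ h2
      _ = 2 ^ (2 * (KK (n + 1) + 1) ^ 2 + 4) := by rw [pow_add]; ring
      _ ≤ _ := Nat.pow_le_pow_right (by norm_num) h3
  have h6 : 0 < (2 * KK (n + 1) + 2).factorial := Nat.factorial_pos _
  omega

lemma mm_ge (n : ℕ) (h : 2 ^ (2 ^ 8) ≤ n) : 2 ≤ mm n := by
  have h1 := eightQ n h
  unfold mm
  rw [Nat.le_div_iff_mul_le (by have := Nat.factorial_pos (2 * KK (n + 1) + 2); omega)]
  omega

lemma mm_up (n : ℕ) : 4 * (mm n * (2 * KK (n + 1) + 2).factorial) ≤ n := by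
  have := Nat.div_mul_le_self n (4 * (2 * KK (n + 1) + 2).factorial)
  unfold mm
  nlinarith

lemma mm_low (n : ℕ) (h : 2 ^ (2 ^ 8) ≤ n) : n ≤ 8 * (mm n * (2 * KK (n + 1) + 2).factorial) := by
  have h0 := mm_ge n h
  have hpos := Nat.factorial_pos (2 * KK (n + 1) + 2)
  have h1 : n < (mm n + 1) * (4 * (2 * KK (n + 1) + 2).factorial) := by
    unfold mm
    have := Nat.lt_succ_iff.2 (le_refl (n / (4 * (2 * KK (n + 1) + 2).factorial)))
    exact (Nat.div_lt_iff_lt_mul (by omega)).1 this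
  have h2 : (mm n + 1) * (4 * (2 * KK (n + 1) + 2).factorial) ≤
      (2 * mm n) * (4 * (2 * KK (n + 1) + 2).factorial) := Nat.mul_le_mul_right _ (by omega)
  nlinarith

/-- the size of `mm` -/
lemma log_mm (n : ℕ) (h : 2 ^ (2 ^ 8) ≤ n) :
    Real.log n - 3 - 2 * ((KK (n + 1) : ℝ) + 1) ^ 2 ≤ Real.log (mm n) := by
  have hn : (0 : ℝ) < n := by
    have : 0 < n := lt_of_lt_of_le (by positivity) h
    exact_mod_cast this
  have hm : (0 : ℝ) < mm n := by
    have := mm_ge n h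
    exact_mod_cast (by omega : 0 < mm n)
  have h1 : (n : ℝ) ≤ 8 * (mm n * ((2 * KK (n + 1) + 2).factorial : ℝ)) := by exact_mod_cast mm_low n h
  have h2 : ((2 * KK (n + 1) + 2).factorial : ℝ) ≤ 2 ^ (2 * (KK (n + 1) + 1) ^ 2) := by
    exact_mod_cast fac_le (KK (n + 1))
  have h3 : (n : ℝ) ≤ 8 * (mm n * 2 ^ (2 * (KK (n + 1) + 1) ^ 2)) := by
    refine h1.trans ?_
    gcongr
  have h4 := Real.log_le_log hn h3
  have h2pos : (0 : ℝ) < 2 ^ (2 * (KK (n + 1) + 1) ^ 2) := by positivity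
  rw [Real.log_mul (by norm_num) (by positivity), Real.log_mul hm.ne' h2pos.ne', Real.log_pow] at h4
  have h8 : Real.log 8 ≤ 3 := by
    have : (8 : ℝ) = 2 ^ 3 := by norm_num
    rw [this, Real.log_pow]
    have := Real.log_two_lt_d9
    push_cast
    linarith
  have h9 : (((2 * (KK (n + 1) + 1) ^ 2 : ℕ)) : ℝ) * Real.log 2 ≤ 2 * ((KK (n + 1) : ℝ) + 1) ^ 2 := by
    push_cast
    have := Real.log_two_lt_d9
    have h10 : 0 ≤ 2 * ((KK (n + 1) : ℝ) + 1) ^ 2 := by positivity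
    nlinarith
  linarith

lemma log_n (n : ℕ) (h : 2 ^ (2 ^ 8) ≤ n) : (2 ^ (KK (n + 1)) - 1) * Real.log 2 ≤ Real.log n := by
  have h256 : 1 ≤ 2 ^ (2 ^ 8) := Nat.one_le_two_pow
  have h4 := pow_le (n + 1) (by omega)
  have h5 : ((2 : ℝ) ^ (2 ^ (KK (n + 1)))) ≤ 2 * n := by
    have : 2 ^ (2 ^ (KK (n + 1))) ≤ 2 * n := by omega
    exact_mod_cast this
  have hn : (0 : ℝ) < n := by
    have : 0 < n := by omega
    exact_mod_cast this
  have h6 := Real.log_le_log (by positivity) h5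
  rw [Real.log_pow, Real.log_mul (by norm_num) hn.ne'] at h6
  push_cast at h6
  linarith

lemma growth (δ C : ℝ) (hδ : 0 < δ) : ∃ K₁ : ℕ, ∀ K : ℕ, K₁ ≤ K →
    2 * ((K : ℝ) + 1) ^ 2 + C ≤ δ * ((2 : ℝ) ^ K - 1) := by
  have h1 : Tendsto (fun K : ℕ => ((K : ℝ) ^ 2 / (2 : ℝ) ^ K)) atTop (𝓝 0) :=
    tendsto_pow_const_div_const_pow_of_one_lt 2 (by norm_num)
  have h2 : Tendsto (fun K : ℕ => (2 : ℝ) ^ K) atTop atTop :=
    tendsto_pow_atTop_atTop_of_one_lt (by norm_num)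
  have h3 := (h1.eventually (gt_mem_nhds (show (0 : ℝ) < δ / 16 by positivity))).and
    ((h2.eventually (eventually_ge_atTop ((C + δ) * 2 / δ))).and (eventually_ge_atTop 1))
  obtain ⟨K₁, hK⟩ := eventually_atTop.1 h3
  refine ⟨K₁, fun K hKK => ?_⟩
  obtain ⟨h4, h5, h6⟩ := hK K hKK
  have h7 : (0 : ℝ) < 2 ^ K := by positivity
  rw [div_lt_iff₀ h7] at h4
  rw [div_le_iff₀ hδ] at h5
  have h8 : (1 : ℝ) ≤ K := by exact_mod_cast h6
  nlinarith

lemma bdd_of_ev (L : ℕ → ℝ) (j₀ : ℕ) (h : ∀ j, j₀ ≤ j → L j ≤ L (j + 1)) : ∃ C : ℝ, ∀ j, C ≤ L j := by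
  have h1 : ∀ j, j₀ ≤ j → L j₀ ≤ L j := by
    intro j hj
    induction j, hj using Nat.le_induction with
    | base => exact le_refl _
    | succ j hj ih => exact ih.trans (h j hj)
  obtain ⟨C, hC⟩ := ((range (j₀ + 1)).image L).bddBelow
  refine ⟨C, fun j => ?_⟩
  rcases le_total j j₀ with hj | hj
  · apply hC
    simp only [coe_image, Set.mem_image, coe_range, Set.mem_Iio]
    exact ⟨j, by omega, rfl⟩
  · refine le_trans ?_ (h1 j hj)
    apply hC
    simp only [coe_image, Set.mem_image, coe_range, Set.mem_Iio]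
    exact ⟨j₀, by omega, rfl⟩

theorem t_NUM : S_NUM := by
  refine ⟨2 ^ (2 ^ 8), fun n hn => ⟨mm_ge n hn, ?_⟩, ?_⟩
  · have h1 : (8 : ℝ) * ((2 * KK (n + 1) + 2).factorial : ℝ) ≤ n := by exact_mod_cast eightQ n hn
    have h2 : (4 : ℝ) * (mm n * ((2 * KK (n + 1) + 2).factorial : ℝ)) ≤ n := by exact_mod_cast mm_up n
    have h3 : ((QQ (n + 1) : ℤ) : ℝ) = ((2 * KK (n + 1) + 2).factorial : ℝ) := by
      unfold QQ; push_cast; rfl
    rw [h3]
    linarith
  · intro s B N hs hs1 hN hB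
    -- the logarithm
    obtain ⟨L, hL⟩ : ∃ L : ℕ → ℝ, L = fun j => ∑ l ∈ range j, Real.log (mm (N + l)) -
      s * (((N + j : ℕ) : ℝ) * Real.log (((N + j : ℕ) : ℝ) + 1 + B)) := ⟨_, rfl⟩
    have hNpos : 1 ≤ N := le_trans Nat.one_le_two_pow hN
    have hNR : (1 : ℝ) ≤ N := by exact_mod_cast hNpos
    obtain ⟨K₁, hK₁⟩ := growth ((1 - s) * Real.log 2) (3 + 2 + Real.log (3 + |B|))
      (mul_pos (by linarith) (Real.log_pos (by norm_num)))
    have hev : ∀ j, 2 ^ (2 ^ K₁) + ⌈2 * |1 + B|⌉₊ ≤ j → L j ≤ L (j + 1) := by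
      intro j hj
      obtain ⟨n, hn⟩ : ∃ n, n = N + j := ⟨_, rfl⟩
      have hnN : N ≤ n := by omega
      have hn8 : 2 ^ (2 ^ 8) ≤ n := hN.trans hnN
      have hnK : K₁ ≤ KK (n + 1) := K_large K₁ _ (by omega)
      have h1 := hK₁ _ hnK
      have h2 := log_mm n hn8
      have h3 := log_n n hn8
      have hnR : (N : ℝ) ≤ n := by exact_mod_cast hnN
      have hn1 : (1 : ℝ) ≤ n := by linarith
      obtain ⟨x, hx⟩ : ∃ x : ℝ, x = (n : ℝ) + 1 + B := ⟨_, rfl⟩
      have hx1 : 1 ≤ x := by rw [hx]; linarith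
      have hx0 : 0 < x := by linarith
      have hnx : (n : ℝ) ≤ 2 * x := by
        have h4 : 2 * |1 + B| ≤ (⌈2 * |1 + B|⌉₊ : ℝ) := Nat.le_ceil _
        have h5 : ((⌈2 * |1 + B|⌉₊ : ℕ) : ℝ) ≤ n := by
          have hj2 : ⌈2 * |1 + B|⌉₊ ≤ j := le_trans (Nat.le_add_left _ _) hj
          have : ⌈2 * |1 + B|⌉₊ ≤ n := by omega
          exact_mod_cast this
        have h6 := neg_abs_le (1 + B)
        rw [hx]
        linarith
      have hlog : Real.log (x + 1) - Real.log x ≤ 1 / x := by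
        rw [← Real.log_div (by linarith) hx0.ne']
        have h4 : (x + 1) / x = 1 + 1 / x := by field_simp
        have h5 := Real.log_le_sub_one_of_pos (show 0 < (x + 1) / x by positivity)
        rw [h4] at h5 ⊢
        linarith
      have hlog2 : (n : ℝ) * (Real.log (x + 1) - Real.log x) ≤ 2 := by
        calc (n : ℝ) * (Real.log (x + 1) - Real.log x) ≤ n * (1 / x) := by gcongr
          _ ≤ (2 * x) * (1 / x) := by gcongr
          _ = 2 := by field_simp
      have hlog3 : Real.log (x + 1) ≤ Real.log n + Real.log (3 + |B|) := by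
        rw [← Real.log_mul (by linarith) (by positivity)]
        apply Real.log_le_log (by linarith)
        rw [hx]
        have h6 := le_abs_self B
        have h7 := abs_nonneg B
        nlinarith
      have hC0 : 0 ≤ Real.log (3 + |B|) := Real.log_nonneg (by have := abs_nonneg B; linarith)
      have hln0 : 0 ≤ Real.log n := Real.log_nonneg hn1
      have hkey : s * (((n : ℝ) + 1) * Real.log (x + 1)) ≤ Real.log (mm n) + s * (n * Real.log x) := by
        have h4 : s * (((n : ℝ) + 1) * Real.log (x + 1)) - s * (n * Real.log x) =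
            s * Real.log (x + 1) + s * (n * (Real.log (x + 1) - Real.log x)) := by ring
        have h5 : s * (n * (Real.log (x + 1) - Real.log x)) ≤ 2 := by
          calc s * (n * (Real.log (x + 1) - Real.log x)) ≤ s * 2 := by gcongr
            _ ≤ 2 := by linarith
        have h6 : s * Real.log (x + 1) ≤ s * Real.log n + Real.log (3 + |B|) := by
          calc s * Real.log (x + 1) ≤ s * (Real.log n + Real.log (3 + |B|)) := by gcongr
            _ ≤ _ := by nlinarith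
        have h7 : (1 - s) * Real.log 2 * (2 ^ KK (n + 1) - 1) ≤ (1 - s) * Real.log n := by
          calc (1 - s) * Real.log 2 * (2 ^ KK (n + 1) - 1) = (1 - s) * ((2 ^ KK (n + 1) - 1) * Real.log 2) := by
                ring
            _ ≤ _ := mul_le_mul_of_nonneg_left h3 (by linarith)
        linarith
      rw [hL]
      simp only
      rw [sum_range_succ, ← hn]
      have h8 : ((N + (j + 1) : ℕ) : ℝ) = (n : ℝ) + 1 := by rw [hn]; push_cast; ring
      rw [h8, ← hx]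
      have h9 : (n : ℝ) + 1 + 1 + B = x + 1 := by rw [hx]; ring
      rw [h9]
      linarith
    obtain ⟨C, hC⟩ := bdd_of_ev L _ hev
    refine ⟨Real.exp (C - Real.log 32), Real.exp_pos _, fun j => ?_⟩
    obtain ⟨n, hn⟩ : ∃ n, n = N + j := ⟨_, rfl⟩
    have hnN : N ≤ n := by omega
    have hn8 : 2 ^ (2 ^ 8) ≤ n := hN.trans hnN
    have hnR : (N : ℝ) ≤ n := by exact_mod_cast hnN
    have hn1 : (1 : ℝ) ≤ n := by linarith
    obtain ⟨x, hx⟩ : ∃ x : ℝ, x = (n : ℝ) + 1 + B := ⟨_, rfl⟩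
    have hx1 : 1 ≤ x := by rw [hx]; linarith
    have hx0 : 0 < x := by linarith
    have hQ : ((QQ (n + 1) : ℤ) : ℝ) = ((2 * KK (n + 1) + 2).factorial : ℝ) := by
      unfold QQ; push_cast; rfl
    have hmq : (n : ℝ) ≤ 8 * (mm n * ((2 * KK (n + 1) + 2).factorial : ℝ)) := by exact_mod_cast mm_low n hn8
    have hprod : ∀ l, (0 : ℝ) < mm (N + l) := by
      intro l
      have := mm_ge (N + l) (hN.trans (by omega))
      exact_mod_cast (by omega : 0 < mm (N + l))
    have hP : (0 : ℝ) < ∏ l ∈ range j, (mm (N + l) : ℝ) := prod_pos fun l _ => hprod l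
    rw [← hn, ← hx, hQ]
    have hg : 1 / (32 * x ^ n) ≤ (mm n : ℝ) * (((2 * KK (n + 1) + 2).factorial : ℝ) / (2 * (((n : ℝ) + 1) * x ^ n))) := by
      have hxn : 0 < x ^ n := by positivity
      rw [← mul_div_assoc, div_le_div_iff₀ (by positivity) (by positivity)]
      have h1 : (n : ℝ) + 1 ≤ 2 * n := by linarith
      have h2 : (1 : ℝ) * (2 * (((n : ℝ) + 1) * x ^ n)) ≤ (4 * n) * x ^ n := by nlinarith
      have h3 : (4 * (n : ℝ)) * x ^ n ≤ (4 * (8 * (mm n * ((2 * KK (n + 1) + 2).factorial : ℝ)))) * x ^ n := by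
        gcongr
      refine h2.trans (h3.trans (le_of_eq ?_))
      ring
    have hgpos : 0 < 1 / (32 * x ^ n) := by positivity
    have h1 := hC j
    rw [hL] at h1
    simp only at h1
    rw [← hn, ← hx] at h1
    calc Real.exp (C - Real.log 32) ≤ Real.exp (Real.log (∏ l ∈ range j, (mm (N + l) : ℝ)) +
          Real.log (1 / (32 * x ^ n)) * s) := by
          apply Real.exp_le_exp.2
          rw [Real.log_prod fun l _ => (hprod l).ne', Real.log_div one_ne_zero (by positivity), Real.log_one,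
            Real.log_mul (by norm_num) (by positivity), Real.log_pow]
          have h32 : 0 ≤ Real.log 32 := Real.log_nonneg (by norm_num)
          nlinarith
      _ = (∏ l ∈ range j, (mm (N + l) : ℝ)) * (1 / (32 * x ^ n)) ^ s := by
          rw [Real.exp_add, Real.exp_log hP, Real.rpow_def_of_pos hgpos]
      _ ≤ _ := by
          gcongr

end Pool.Agent.Helper32.NNF
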